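import Mathlib

/-!
Counting in periods: conditions at the primes `p` of a finite set which depend on `k` modulo `p (p - 1)` and hold for the same
number of classes modulo `p` in every class modulo `p - 1`, are independent.
-/

namespace Pool.Agent.H2.WO

open Finset

theorem sum_split (M q : ℕ) (f : ℕ → ℕ) :
    ∑ k ∈ range (M * q), f k = ∑ u ∈ range M, ∑ j ∈ range q, f (u + M * j) := by
  induction q with
  | zero => simp
  | succ q ih =>
    rw [Nat.mul_succ, Finset.sum_range_add, ih, ← Finset.sum_add_distrib]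
    refine Finset.sum_congr rfl fun u _ => ?_
    rw [Finset.sum_range_succ, add_comm (M * q) u]

theorem per_mul {R : ℕ → Prop} {Q : ℕ} (h : ∀ k, R (k + Q) ↔ R k) (k j : ℕ) : R (k + Q * j) ↔ R k := by
  induction j with
  | zero => simp
  | succ j ih => rw [Nat.mul_succ, ← add_assoc, h, ih]

open Classical in
theorem card_per {R : ℕ → Prop} {Q : ℕ} (h : ∀ k, R (k + Q) ↔ R k) (m : ℕ) :
    ((range (Q * m)).filter R).card = ((range Q).filter R).card * m := by
  rw [Finset.card_filter, Finset.card_filter, sum_split, Finset.sum_mul]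
  refine Finset.sum_congr rfl fun u _ => ?_
  rw [Finset.sum_congr rfl (g := fun _ => if R u then 1 else 0)]
  · simp [mul_comm]
  · intro j _
    simp only [per_mul h]

/-- the condition at the prime `p`: period `p (p - 1)`, and `n` classes modulo `p` in each class modulo `M` -/
structure Cond (T : ℕ → Prop) (p n : ℕ) : Prop where
  per : ∀ k, T (k + p * (p - 1)) ↔ T k
  cnt : ∀ M u, (p - 1) ∣ M → Nat.Coprime M p → ({j ∈ range p | T (u + M * j)} : Set ℕ).ncard = n

open Classical in
theorem count (T : ℕ → ℕ → Prop) (n : ℕ → ℕ) {R : ℕ → Prop} {Q : ℕ} (hQ : 0 < Q) (hR : ∀ k, R (k + Q) ↔ R k)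
    (S : Finset ℕ) (hS : ∀ p ∈ S, p.Prime ∧ ¬ p ∣ Q ∧ Cond (T p) p (n p)) :
    ((range (Q * ∏ p ∈ S, p * (p - 1))).filter (fun k => R k ∧ ∀ p ∈ S, T p k)).card =
      ((range Q).filter R).card * ∏ p ∈ S, (p - 1) * n p := by
  induction S using Finset.induction_on_max with
  | empty => simp
  | insert q s hq ih =>
    have hqs : q ∉ s := fun h => lt_irrefl _ (hq q h)
    have ih' := ih fun p hp => hS p (mem_insert_of_mem hp)
    obtain ⟨hqp, hqQ, hT⟩ := hS q (mem_insert_self q s)
    set Q' := Q * ∏ p ∈ s, p * (p - 1) with hQ'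
    set R' : ℕ → Prop := fun k => R k ∧ ∀ p ∈ s, T p k with hR'
    have hper : ∀ k, R' (k + Q') ↔ R' k := by
      intro k
      refine and_congr (per_mul hR k _) (forall₂_congr fun p hp => ?_)
      have h1 : Q' = p * (p - 1) * (Q * ∏ x ∈ s.erase p, x * (x - 1)) := by
        rw [hQ', ← Finset.mul_prod_erase s _ hp]
        ring
      rw [h1]
      exact per_mul (hS p (mem_insert_of_mem hp)).2.2.per k _
    rw [prod_insert hqs, prod_insert hqs]
    have e1 : Q * (q * (q - 1) * ∏ p ∈ s, p * (p - 1)) = Q' * (q - 1) * q := by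
      rw [hQ']; ring
    rw [e1]
    have hcop : Nat.Coprime (Q' * (q - 1)) q := by
      have hq1 : q ≠ 1 := hqp.one_lt.ne'
      refine Nat.Coprime.symm ((Nat.Prime.coprime_iff_not_dvd hqp).2 fun hd => ?_)
      rcases (Nat.Prime.dvd_mul hqp).1 hd with h | h
      · rcases (Nat.Prime.dvd_mul hqp).1 h with h | h
        · exact hqQ h
        · obtain ⟨p, hp, hpd⟩ := (Prime.dvd_finsetProd_iff hqp.prime _).1 h
          have hpq := hq p hp
          have hpp := (hS p (mem_insert_of_mem hp)).1
          rcases (Nat.Prime.dvd_mul hqp).1 hpd with h2 | h2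
          · exact absurd (Nat.le_of_dvd hpp.pos h2) (by omega)
          · exact absurd (Nat.le_of_dvd (by have := hpp.one_lt; omega) h2) (by omega)
      · exact absurd (Nat.le_of_dvd (by have := hqp.one_lt; omega) h) (by have := hqp.one_lt; omega)
    have hset : ∀ k, (R k ∧ ∀ p ∈ insert q s, T p k) ↔ (R' k ∧ T q k) := by
      intro k
      rw [hR']
      simp only [Finset.forall_mem_insert]
      tauto
    simp only [hset]
    rw [Finset.card_filter, sum_split]
    have e2 : ∀ u ∈ range (Q' * (q - 1)),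
        ∑ j ∈ range q, (if R' (u + Q' * (q - 1) * j) ∧ T q (u + Q' * (q - 1) * j) then 1 else 0)
          = n q * (if R' u then 1 else 0) := by
      intro u _
      have h1 : ∀ j, R' (u + Q' * (q - 1) * j) ↔ R' u := by
        intro j
        rw [mul_assoc]
        exact per_mul hper u _
      simp only [h1]
      by_cases hu : R' u
      · simp only [hu, true_and, if_true, mul_one]
        rw [← hT.cnt (Q' * (q - 1)) u (dvd_mul_left _ _) hcop, ← Finset.card_filter,
          ← Set.ncard_coe_finset]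
        congr 1
        ext j
        simp
      · simp [hu]
    rw [Finset.sum_congr rfl e2, ← Finset.mul_sum, ← Finset.card_filter]
    have h5 : ((range (Q' * (q - 1))).filter (fun i => R' i)).card =
        (((range Q).filter R).card * ∏ p ∈ s, (p - 1) * n p) * (q - 1) := by
      rw [← ih']
      convert card_per hper (q - 1) using 2
      · ext; simp
      · congr 1; ext; simp [hR']
    rw [h5]
    ring

open Classical in
/-- counting in an interval -/
theorem interval {R : ℕ → Prop} {Q : ℕ} (hQ : 0 < Q) (hR : ∀ k, R (k + Q) ↔ R k) (X : ℕ) :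
    |(((range X).filter R).card : ℝ) - X * (((range Q).filter R).card / Q)| ≤ ((range Q).filter R).card := by
  set N := ((range Q).filter R).card with hN
  have h1 : ((range X).filter R).card = N * (X / Q) + ((range (X % Q)).filter R).card := by
    conv_lhs => rw [← Nat.div_add_mod X Q]
    rw [hN, ← card_per hR (X / Q), Finset.card_filter, Finset.card_filter, Finset.card_filter]
    rw [Finset.sum_range_add (fun k => if R k then 1 else 0)]
    congr 1
    refine Finset.sum_congr rfl fun k _ => ?_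
    rw [add_comm]
    simp only [per_mul hR]
  have h2 : ((range (X % Q)).filter R).card ≤ N :=
    Finset.card_le_card (Finset.filter_subset_filter _ (Finset.range_subset_range.2 (Nat.mod_lt X hQ).le))
  have hQR : (0 : ℝ) < Q := by exact_mod_cast hQ
  have h3 : (X : ℝ) = Q * (X / Q : ℕ) + (X % Q : ℕ) := by
    exact_mod_cast (Nat.div_add_mod X Q).symm
  have h4 : ((X % Q : ℕ) : ℝ) ≤ Q := by exact_mod_cast (Nat.mod_lt X hQ).le
  have h5 : (((range (X % Q)).filter R).card : ℝ) ≤ N := by exact_mod_cast h2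
  have h6 : (0 : ℝ) ≤ ((X % Q : ℕ) : ℝ) := Nat.cast_nonneg _
  have h7 : (0 : ℝ) ≤ (((range (X % Q)).filter R).card : ℝ) := Nat.cast_nonneg _
  have h8 : (0 : ℝ) ≤ (N : ℝ) := Nat.cast_nonneg _
  rw [h1]
  push_cast
  have h9 : (X : ℝ) * ((N : ℝ) / Q) = N * (X / Q : ℕ) + N * ((X % Q : ℕ) / Q) := by
    rw [h3]
    field_simp
  rw [h9]
  have h10 : 0 ≤ (N : ℝ) * (((X % Q : ℕ) : ℝ) / Q) := by positivity
  have h11 : (N : ℝ) * (((X % Q : ℕ) : ℝ) / Q) ≤ N := by
    have : ((X % Q : ℕ) : ℝ) / Q ≤ 1 := (div_le_one hQR).2 h4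
    nlinarith
  rw [abs_le]
  constructor <;> linarith

/-- the number of `k < n` with `R k` -/
noncomputable def num (R : ℕ → Prop) (n : ℕ) : ℕ := ({k | k < n ∧ R k} : Set ℕ).ncard

theorem num_eq (R : ℕ → Prop) [DecidablePred R] (n : ℕ) : ((range n).filter R).card = num R n := by
  rw [num, ← Set.ncard_coe_finset]
  congr 1
  ext k
  simp

theorem countN (T : ℕ → ℕ → Prop) (n : ℕ → ℕ) {R : ℕ → Prop} {Q : ℕ} (hQ : 0 < Q) (hR : ∀ k, R (k + Q) ↔ R k)
    (S : Finset ℕ) (hS : ∀ p ∈ S, p.Prime ∧ ¬ p ∣ Q ∧ Cond (T p) p (n p)) :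
    num (fun k => R k ∧ ∀ p ∈ S, T p k) (Q * ∏ p ∈ S, p * (p - 1)) = num R Q * ∏ p ∈ S, (p - 1) * n p := by
  classical
  have h := count T n hQ hR S hS
  rw [← num_eq, ← num_eq]
  convert h

theorem intervalN {R : ℕ → Prop} {Q : ℕ} (hQ : 0 < Q) (hR : ∀ k, R (k + Q) ↔ R k) (X : ℕ) :
    |(num R X : ℝ) - X * ((num R Q : ℝ) / Q)| ≤ num R Q := by
  classical
  have h := interval hQ hR X
  rw [← num_eq, ← num_eq]
  convert h

end Pool.Agent.H2.WO
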