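import Pool.Agent.H2.WO.Mer

/-!
Final forms.
-/

namespace Pool.Agent.H2.WO

open Finset

/-- the number of `k < X` for which no `k b ^ k + c`, `c` in `C`, has a prime factor `p ≤ y` -/
noncomputable def rgh (b : ℕ) (C : Finset ℤ) (X : ℕ) (y : ℝ) : ℕ :=
  {k : ℕ | k < X ∧ ∀ c ∈ C, ∀ p : ℕ, p.Prime → (p : ℝ) ≤ y → ¬ (p : ℤ) ∣ (k : ℤ) * (b : ℤ) ^ k + c}.ncard

noncomputable def dns (b : ℕ) (C : Finset ℤ) (y : ℝ) : ℝ :=
  ∏ p ∈ (Finset.range (⌊y⌋₊ + 1)).filter (fun p => p.Prime ∧ ¬ p ∣ b),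
    (1 - (((fun c : ℤ => (c : ZMod p)) '' (C : Set ℤ)).ncard : ℝ) / p)

theorem le_floor_iff {p : ℕ} (hp : p.Prime) (y : ℝ) : (p : ℝ) ≤ y ↔ p ≤ ⌊y⌋₊ := by
  rcases le_or_gt 0 y with h | h
  · exact (Nat.le_floor_iff h).symm
  · rw [Nat.floor_of_nonpos h.le]
    have h1 := hp.pos
    constructor
    · intro h2
      have : (0 : ℝ) ≤ p := Nat.cast_nonneg _
      linarith
    · intro h2
      omega

theorem rgh_eq (b : ℕ) (C : Finset ℤ) (hC : ∀ c ∈ C, IsCoprime (b : ℤ) c) (X : ℕ) (y : ℝ) :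
    rgh b C X y = num (fun k => ∀ p ∈ pr b ⌊y⌋₊, ¬ Hit b C p k) X := by
  unfold rgh num
  congr 1
  ext k
  refine and_congr_right fun _ => ?_
  constructor
  · rintro h p hp ⟨c, hc, hd⟩
    rw [mem_pr] at hp
    exact h c hc p hp.2.1 ((le_floor_iff hp.2.1 y).2 hp.1) hd
  · intro h c hc p hp hy hd
    by_cases hb : p ∣ b
    · have h1 : (p : ℤ) ∣ (k : ℤ) * (b : ℤ) ^ k := by
        rcases Nat.eq_zero_or_pos k with h0 | h0
        · subst h0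
          simp
        · exact Dvd.dvd.mul_left (dvd_pow (Int.natCast_dvd_natCast.2 hb) h0.ne') _
      have h2 : (p : ℤ) ∣ c := (dvd_add_right h1).1 hd
      have h3 := (hC c hc).isUnit_of_dvd' (Int.natCast_dvd_natCast.2 hb) h2
      rw [Int.isUnit_iff_natAbs_eq, Int.natAbs_natCast] at h3
      exact hp.one_lt.ne' h3
    · exact h p (mem_pr.2 ⟨(le_floor_iff hp y).1 hy, hp, hb⟩) ⟨c, hc, hd⟩

theorem dns_eq (b : ℕ) (C : Finset ℤ) (y : ℝ) : dns b C y = ∏ p ∈ pr b ⌊y⌋₊, (1 - (nu C p : ℝ) / p) := rfl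

theorem part1 (K : ℕ) (ε : ℝ) (hε : 0 < ε) : ∃ δ : ℝ, 0 < δ ∧ δ ≤ 1 ∧ ∀ (b : ℕ) (C : Finset ℤ), C.card ≤ K →
    (∀ c ∈ C, IsCoprime (b : ℤ) c) → ∃ X₀ : ℕ, ∀ X : ℕ, X₀ ≤ X → ∀ y : ℝ, y ≤ (X : ℝ) ^ δ →
      |(rgh b C X y : ℝ) - X * dns b C y| ≤ ε * (X * dns b C y) := by
  obtain ⟨δ, hδ, h⟩ := main (K + 1) (by omega) ε hε
  refine ⟨min δ 1, lt_min hδ one_pos, min_le_right _ _, fun b C hC hcop => ?_⟩
  obtain ⟨X₀, h2⟩ := h b C (by omega)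
  refine ⟨max X₀ 1, fun X hX y hy => ?_⟩
  rw [rgh_eq b C hcop, dns_eq]
  refine h2 X ((le_max_left _ _).trans hX) _ ?_
  have hX1 : (1 : ℝ) ≤ X := by exact_mod_cast (le_max_right _ _).trans hX
  have h3 : (X : ℝ) ^ min δ 1 ≤ (X : ℝ) ^ δ := Real.rpow_le_rpow_of_exponent_le hX1 (min_le_left _ _)
  rcases le_or_gt 0 y with h4 | h4
  · exact (Nat.floor_le h4).trans (hy.trans h3)
  · rw [Nat.floor_of_nonpos h4.le]
    simp only [Nat.cast_zero]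
    positivity

theorem part2 (K : ℕ) : ∃ δ : ℝ, 0 < δ ∧ ∀ (b : ℕ) (C : Finset ℤ), 1 ≤ b → C.card = K →
    (∀ c ∈ C, IsCoprime (b : ℤ) c) →
    (∀ p : ℕ, p.Prime → ¬ p ∣ b → ((fun c : ℤ => (c : ZMod p)) '' (C : Set ℤ)).ncard < p) →
      ∃ η : ℝ, 0 < η ∧ ∃ X₀ : ℕ, ∀ X : ℕ, X₀ ≤ X →
        η * (X / Real.log X ^ K) ≤ rgh b C X ((X : ℝ) ^ δ) ∧
        (rgh b C X ((X : ℝ) ^ δ) : ℝ) ≤ η⁻¹ * (X / Real.log X ^ K) := by
  obtain ⟨δ, hδ, hδ1, h⟩ := part1 K (1 / 2) (by norm_num)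
  refine ⟨δ, hδ, fun b C hb hC hcop hadm => ?_⟩
  obtain ⟨X₀, h1⟩ := h b C hC.le hcop
  obtain ⟨c1, hc1, hlow⟩ := prod_lower K b (nu C) (fun p => hC ▸ nu_le C p) hadm
  set N : ℕ := b * ∏ x ∈ C.offDiag, (x.1 - x.2).natAbs with hN
  have hN0 : N ≠ 0 := by
    refine Nat.mul_ne_zero (by omega) (Finset.prod_ne_zero_iff.2 fun x hx => ?_)
    rw [Finset.mem_offDiag] at hx
    rw [Int.natAbs_ne_zero]
    exact sub_ne_zero.2 hx.2.2
  have hNν : ∀ p, p.Prime → ¬ p ∣ N → ¬ p ∣ b ∧ nu C p = K := by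
    intro p hp hpN
    refine ⟨fun h2 => hpN (h2.mul_right _), ?_⟩
    unfold nu
    rw [Set.InjOn.ncard_image, Set.ncard_coe_finset, hC]
    intro c hc c' hc' hcc
    by_contra hne
    apply hpN
    refine Dvd.dvd.mul_left ?_ _
    refine Dvd.dvd.trans ?_ (Finset.dvd_prod_of_mem (fun x : ℤ × ℤ => (x.1 - x.2).natAbs)
      (show ((c, c') : ℤ × ℤ) ∈ C.offDiag from Finset.mem_offDiag.2 ⟨hc, hc', hne⟩))
    have h3 : ((c - c' : ℤ) : ZMod p) = 0 := by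
      push_cast
      exact sub_eq_zero.2 hcc
    rw [ZMod.intCast_zmod_eq_zero_iff_dvd] at h3
    exact Int.natCast_dvd.1 h3
  obtain ⟨c2, hc2, hupp⟩ := prod_upper K b N (nu C) hN0 (fun p hp => nu_le_self C hp.pos) hNν
  have hev : ∀ᶠ X : ℕ in Filter.atTop, (X : ℝ) ^ (δ / 2) + 4 ≤ (X : ℝ) ^ δ ∧ (2 : ℝ) ≤ X := by
    have h2 : Filter.Tendsto (fun X : ℕ => (X : ℝ) ^ (δ / 2)) Filter.atTop Filter.atTop :=
      (tendsto_rpow_atTop (by positivity)).comp tendsto_natCast_atTop_atTop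
    filter_upwards [h2.eventually_ge_atTop 5, Filter.eventually_ge_atTop 2] with X h3 h4
    have h5 : (X : ℝ) ^ δ = (X : ℝ) ^ (δ / 2) * (X : ℝ) ^ (δ / 2) := by
      rw [← Real.rpow_add (by exact_mod_cast (by omega : 0 < X))]
      congr 1
      ring
    rw [h5]
    exact ⟨by nlinarith, by exact_mod_cast h4⟩
  obtain ⟨X₁, hX₁⟩ := Filter.eventually_atTop.1 hev
  set η : ℝ := min (c1 / 2) (1 / (3 / 2 * c2 * (2 / δ) ^ K)) with hη
  have hη0 : 0 < η := lt_min (by positivity) (by positivity)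
  refine ⟨η, hη0, max X₀ X₁, fun X hX => ?_⟩
  obtain ⟨h2, h3⟩ := hX₁ X ((le_max_right _ _).trans hX)
  have h4 := h1 X ((le_max_left _ _).trans hX) ((X : ℝ) ^ δ) le_rfl
  rw [dns_eq] at h4
  set m := ⌊(X : ℝ) ^ δ⌋₊ with hm
  have hXδ : (0 : ℝ) ≤ (X : ℝ) ^ (δ / 2) := by positivity
  have hm3 : 3 ≤ m := Nat.le_floor (by push_cast; linarith)
  have hlogX : 0 < Real.log X := Real.log_pos (by linarith)
  have hmle : (m : ℝ) ≤ (X : ℝ) ^ δ := Nat.floor_le (by positivity)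
  have hmlt : (X : ℝ) ^ δ < m + 1 := Nat.lt_floor_add_one _
  have hm0 : (0 : ℝ) < m := by exact_mod_cast (by omega : 0 < m)
  have hlogm : Real.log m ≤ Real.log X := by
    refine Real.log_le_log hm0 (hmle.trans ?_)
    calc (X : ℝ) ^ δ ≤ (X : ℝ) ^ (1 : ℝ) := Real.rpow_le_rpow_of_exponent_le (by linarith) hδ1
      _ = X := Real.rpow_one _
  have hlogm2 : δ / 2 * Real.log X ≤ Real.log m := by
    rw [← Real.log_rpow (by linarith)]
    exact Real.log_le_log (by positivity) (by linarith)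
  have hlogm0 : 0 < Real.log m := Real.log_pos (by exact_mod_cast (by omega : 1 < m))
  have hX0 : (0 : ℝ) < X := by linarith
  have e1 := hlow m hm3
  have e2 := hupp m hm3
  have e3 : 1 / Real.log X ^ K ≤ 1 / Real.log m ^ K := by
    apply one_div_le_one_div_of_le (by positivity)
    gcongr
  have e4 : 1 / Real.log m ^ K ≤ (2 / δ) ^ K * (1 / Real.log X ^ K) := by
    have h5 : 1 / Real.log m ^ K ≤ 1 / (δ / 2 * Real.log X) ^ K := by
      apply one_div_le_one_div_of_le (by positivity)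
      gcongr
    refine h5.trans (le_of_eq ?_)
    rw [mul_pow, div_pow, div_pow]
    field_simp
  rw [abs_le] at h4
  set V := ∏ p ∈ pr b m, (1 - (nu C p : ℝ) / p) with hV
  have e5 : c1 * (1 / Real.log X ^ K) ≤ V := (mul_le_mul_of_nonneg_left e3 hc1.le).trans e1
  have e6 : V ≤ c2 * ((2 / δ) ^ K * (1 / Real.log X ^ K)) := e2.trans (mul_le_mul_of_nonneg_left e4 hc2.le)
  constructor
  · have h6 : η ≤ c1 / 2 := min_le_left _ _
    have h7 : X * (c1 * (1 / Real.log X ^ K)) ≤ X * V := mul_le_mul_of_nonneg_left e5 hX0.le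
    calc η * (X / Real.log X ^ K) ≤ c1 / 2 * (X / Real.log X ^ K) := by gcongr
      _ = 1 / 2 * (X * (c1 * (1 / Real.log X ^ K))) := by ring
      _ ≤ 1 / 2 * (X * V) := by gcongr
      _ ≤ rgh b C X ((X : ℝ) ^ δ) := by linarith [h4.1]
  · have h6 : 3 / 2 * c2 * (2 / δ) ^ K ≤ η⁻¹ := by
      rw [le_inv_comm₀ (by positivity) hη0, ← one_div]
      exact min_le_right _ _
    have h7 : X * V ≤ X * (c2 * ((2 / δ) ^ K * (1 / Real.log X ^ K))) := mul_le_mul_of_nonneg_left e6 hX0.le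
    calc (rgh b C X ((X : ℝ) ^ δ) : ℝ) ≤ 3 / 2 * (X * V) := by linarith [h4.2]
      _ ≤ 3 / 2 * (X * (c2 * ((2 / δ) ^ K * (1 / Real.log X ^ K)))) := by gcongr
      _ = 3 / 2 * c2 * (2 / δ) ^ K * (X / Real.log X ^ K) := by ring
      _ ≤ η⁻¹ * (X / Real.log X ^ K) := by gcongr

end Pool.Agent.H2.WO
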