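import Pool.Agent.H2.WO.Cnt

/-!
The condition `p` divides `k b ^ k + c` for some `c` in `C`.
-/

namespace Pool.Agent.H2.WO

open Finset

/-- `p` divides one of the numbers `k b ^ k + c` -/
def Hit (b : ℕ) (C : Finset ℤ) (p k : ℕ) : Prop := ∃ c ∈ C, (p : ℤ) ∣ (k : ℤ) * (b : ℤ) ^ k + c

/-- the number of residue classes of `C` modulo `p` -/
noncomputable def nu (C : Finset ℤ) (p : ℕ) : ℕ := ((fun c : ℤ => (c : ZMod p)) '' (C : Set ℤ)).ncard

theorem nu_le (C : Finset ℤ) (p : ℕ) : nu C p ≤ C.card := by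
  unfold nu
  exact (Set.ncard_image_le C.finite_toSet).trans (by rw [Set.ncard_coe_finset])

theorem hit_iff (b : ℕ) (C : Finset ℤ) (p k : ℕ) :
    Hit b C p k ↔ -((k : ZMod p) * (b : ZMod p) ^ k) ∈ (fun c : ℤ => (c : ZMod p)) '' (C : Set ℤ) := by
  unfold Hit
  simp only [Set.mem_image, Finset.mem_coe]
  refine exists_congr fun c => and_congr_right fun _ => ?_
  rw [← ZMod.intCast_zmod_eq_zero_iff_dvd]
  push_cast
  constructor
  · intro h
    linear_combination h
  · intro h
    linear_combination h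

theorem pow_shift {b p : ℕ} (hp : p.Prime) (hb : ¬ p ∣ b) {M : ℕ} (hM : (p - 1) ∣ M) (u j : ℕ) :
    (b : ZMod p) ^ (u + M * j) = (b : ZMod p) ^ u := by
  have := Fact.mk hp
  have hb0 : (b : ZMod p) ≠ 0 := fun h => hb ((ZMod.natCast_eq_zero_iff b p).1 h)
  obtain ⟨m, rfl⟩ := hM
  rw [pow_add, mul_assoc, pow_mul, ZMod.pow_card_sub_one_eq_one hb0, one_pow, mul_one]

theorem cond_hit {b p : ℕ} (C : Finset ℤ) (hp : p.Prime) (hb : ¬ p ∣ b) : Cond (Hit b C p) p (nu C p) := by
  have := Fact.mk hp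
  have hb0 : (b : ZMod p) ≠ 0 := fun h => hb ((ZMod.natCast_eq_zero_iff b p).1 h)
  refine ⟨fun k => ?_, fun M u hM hc => ?_⟩
  · rw [hit_iff, hit_iff]
    have h1 : (b : ZMod p) ^ (k + p * (p - 1)) = (b : ZMod p) ^ k := by
      have := pow_shift hp hb (M := p * (p - 1)) (dvd_mul_left _ _) k 1
      simpa using this
    rw [h1]
    have h2 : ((k + p * (p - 1) : ℕ) : ZMod p) = (k : ZMod p) := by
      push_cast
      simp
    rw [h2]
  · have hM0 : (M : ZMod p) ≠ 0 := fun h => by
      have h1 := (ZMod.natCast_eq_zero_iff M p).1 h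
      have h2 := Nat.dvd_gcd h1 (dvd_refl p)
      rw [hc] at h2
      exact hp.one_lt.ne' (Nat.dvd_one.1 h2)
    set β : ZMod p := (b : ZMod p) ^ u with hβ
    have hβ0 : β ≠ 0 := pow_ne_zero _ hb0
    set I := (fun c : ℤ => (c : ZMod p)) '' (C : Set ℤ) with hI
    set g : ZMod p → ℕ := fun v => ((-v * β⁻¹ - u) * (M : ZMod p)⁻¹).val with hg
    have hinj : Function.Injective g := by
      intro v w h
      have h1 := ZMod.val_injective p h
      have h2 := mul_right_cancel₀ (inv_ne_zero hM0) h1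
      have h3 : -v * β⁻¹ = -w * β⁻¹ := by linear_combination h2
      have h4 := mul_right_cancel₀ (inv_ne_zero hβ0) h3
      exact neg_injective h4
    have hset : ({j ∈ range p | Hit b C p (u + M * j)} : Set ℕ) = g '' I := by
      ext j
      simp only [Set.mem_ofPred_eq, Finset.mem_range, Set.mem_image (f := g)]
      rw [hit_iff, pow_shift hp hb hM]
      constructor
      · rintro ⟨hj, h⟩
        refine ⟨_, h, ?_⟩
        rw [hg]
        have : (-(-(((u + M * j : ℕ) : ZMod p) * (b : ZMod p) ^ u)) * β⁻¹ - (u : ZMod p)) * (M : ZMod p)⁻¹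
            = (j : ZMod p) := by
          push_cast
          rw [← hβ]
          field_simp
          ring
        simp only [this]
        exact ZMod.val_natCast_of_lt hj
      · rintro ⟨v, hv, rfl⟩
        refine ⟨ZMod.val_lt _, ?_⟩
        convert hv using 1
        rw [hg]
        push_cast
        rw [ZMod.natCast_val, ZMod.cast_id, ← hβ]
        field_simp
        ring
    rw [hset, Set.ncard_image_of_injective _ hinj]
    rfl

theorem cond_avoid {b p : ℕ} (C : Finset ℤ) (hp : p.Prime) (hb : ¬ p ∣ b) :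
    Cond (fun k => ¬ Hit b C p k) p (p - nu C p) := by
  obtain ⟨h1, h2⟩ := cond_hit C hp hb
  refine ⟨fun k => not_congr (h1 k), fun M u hM hc => ?_⟩
  have h3 := h2 M u hM hc
  have h4 : ({j ∈ range p | ¬ Hit b C p (u + M * j)} : Set ℕ) =
      (↑(range p) : Set ℕ) \ ({j ∈ range p | Hit b C p (u + M * j)} : Set ℕ) := by
    ext j
    simp only [Set.mem_ofPred_eq, Set.mem_sdiff, Finset.mem_coe]
    tauto
  rw [h4, Set.ncard_sdiff (fun j hj => hj.1) ((range p).finite_toSet.subset fun j hj => hj.1), h3,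
    Set.ncard_coe_finset, card_range]

end Pool.Agent.H2.WO
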