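import Mathlib

/-!
A lower bound for the sieve product.
-/

namespace Pool.Agent.H2.WO

open Finset

theorem step_le (K : ℕ) (t : ℝ) (ht : 0 ≤ t) (ht1 : t ≤ 1) (hK : 2 * K * t ≤ 1) :
    (1 - t) ^ (2 * K) ≤ 1 - K * t := by
  have h1 : 1 + ((2 * K : ℕ) : ℝ) * t ≤ (1 + t) ^ (2 * K) := one_add_mul_le_pow (by linarith) _
  push_cast at h1
  have h2 : 0 ≤ (1 - t) ^ (2 * K) := pow_nonneg (by linarith) _
  have h3 : (1 - t) ^ (2 * K) * (1 + t) ^ (2 * K) ≤ 1 := by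
    rw [← mul_pow]
    exact pow_le_one₀ (by nlinarith) (by nlinarith)
  have h4 : (1 - t) ^ (2 * K) * (1 + 2 * K * t) ≤ 1 := (mul_le_mul_of_nonneg_left h1 h2).trans h3
  have hKt : (0 : ℝ) ≤ K * t := by positivity
  have h5 : 1 ≤ (1 - K * t) * (1 + 2 * K * t) := by nlinarith
  have h6 : 0 ≤ 1 - K * t := by nlinarith
  calc (1 - t) ^ (2 * K) ≤ (1 - t) ^ (2 * K) * ((1 - K * t) * (1 + 2 * K * t)) :=
        le_mul_of_one_le_right h2 h5
    _ = (1 - K * t) * ((1 - t) ^ (2 * K) * (1 + 2 * K * t)) := by ring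
    _ ≤ (1 - K * t) * 1 := mul_le_mul_of_nonneg_left h4 h6
    _ = 1 - K * t := mul_one _

theorem prod_all (m : ℕ) : ∏ q ∈ Icc 2 (m + 1), (1 - 1 / (q : ℝ)) = 1 / ((m : ℝ) + 1) := by
  induction m with
  | zero => simp
  | succ m ih =>
    have e : Icc 2 (m + 1 + 1) = insert (m + 1 + 1) (Icc 2 (m + 1)) := by
      ext x
      simp only [mem_Icc, mem_insert]
      omega
    rw [e, prod_insert (by simp), ih]
    push_cast
    have : (m : ℝ) + 1 ≠ 0 := by positivity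
    have : (m : ℝ) + 1 + 1 ≠ 0 := by positivity
    field_simp
    ring

theorem prod_low (K y w : ℕ) (P : Finset ℕ) (ν : ℕ → ℕ) (hw : 200 * K ≤ w) (hw1 : 1 ≤ w)
    (hP : ∀ p ∈ P, w < p ∧ p ≤ y) (hν : ∀ p, ν p ≤ K) :
    (1 / ((y : ℝ) + 1)) ^ (2 * K) ≤ ∏ p ∈ P, (1 - (ν p : ℝ) / p) := by
  have h1 : ∀ p ∈ P, (1 - 1 / (p : ℝ)) ^ (2 * K) ≤ 1 - (ν p : ℝ) / p := by
    intro p hp
    obtain ⟨h2, h3⟩ := hP p hp
    have hp0 : (0 : ℝ) < p := by exact_mod_cast (by omega : 0 < p)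
    have hKp : (200 * K : ℝ) ≤ p := by exact_mod_cast (by omega : 200 * K ≤ p)
    have hνK : (ν p : ℝ) ≤ K := by exact_mod_cast hν p
    have h4 : (1 : ℝ) / p ≤ 1 := by
      rw [div_le_one hp0]
      exact_mod_cast (by omega : 1 ≤ p)
    have h5 : 2 * (K : ℝ) * (1 / p) ≤ 1 := by
      rw [mul_one_div, div_le_one hp0]
      have : (0 : ℝ) ≤ K := Nat.cast_nonneg _
      linarith
    have h6 := step_le K (1 / p) (by positivity) h4 h5
    have h7 : (ν p : ℝ) / p ≤ K * (1 / p) := by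
      rw [mul_one_div]
      gcongr
    linarith
  have h8 : ∀ p ∈ P, (0 : ℝ) ≤ 1 - 1 / (p : ℝ) := by
    intro p hp
    have hp0 : (0 : ℝ) < p := by exact_mod_cast (by have := (hP p hp).1; omega : 0 < p)
    rw [sub_nonneg, div_le_one hp0]
    exact_mod_cast (by have := (hP p hp).1; omega : 1 ≤ p)
  have hsub : P ⊆ Icc 2 (y + 1) := by
    intro p hp
    have := hP p hp
    rw [mem_Icc]
    omega
  have h9 : ∏ q ∈ Icc 2 (y + 1), (1 - 1 / (q : ℝ)) ≤ ∏ p ∈ P, (1 - 1 / (p : ℝ)) := by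
    rw [← Finset.prod_sdiff hsub]
    have h10 : ∏ q ∈ Icc 2 (y + 1) \ P, (1 - 1 / (q : ℝ)) ≤ 1 := by
      refine Finset.prod_le_one (fun q hq => ?_) fun q hq => ?_
      · have h11 := (mem_Icc.1 (mem_sdiff.1 hq).1).1
        have hp0 : (0 : ℝ) < q := by exact_mod_cast (by omega : 0 < q)
        rw [sub_nonneg, div_le_one hp0]
        exact_mod_cast (by omega : 1 ≤ q)
      · have : (0 : ℝ) ≤ 1 / (q : ℝ) := by positivity
        linarith
    exact mul_le_of_le_one_left (Finset.prod_nonneg h8) h10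
  calc (1 / ((y : ℝ) + 1)) ^ (2 * K) = (∏ q ∈ Icc 2 (y + 1), (1 - 1 / (q : ℝ))) ^ (2 * K) := by
        rw [prod_all]
    _ ≤ (∏ p ∈ P, (1 - 1 / (p : ℝ))) ^ (2 * K) := by
        refine pow_le_pow_left₀ ?_ h9 _
        rw [prod_all]
        positivity
    _ = ∏ p ∈ P, (1 - 1 / (p : ℝ)) ^ (2 * K) := (Finset.prod_pow _ _ _).symm
    _ ≤ ∏ p ∈ P, (1 - (ν p : ℝ) / p) :=
        Finset.prod_le_prod (fun p hp => pow_nonneg (h8 p hp) _) h1

/-- size conditions -/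
theorem size (K : ℕ) (δ : ℝ) (hδ : 2 * K * δ ≤ 1 / 8) (X y : ℕ) (hX : 1 ≤ X) (hX2 : (2 : ℝ) ^ (16 * K) ≤ X)
    (hδ0 : 0 < δ) (hy : (y : ℝ) ≤ (X : ℝ) ^ δ) :
    (X : ℝ) ^ (-(1 / 4 : ℝ)) ≤ (1 / ((y : ℝ) + 1)) ^ (2 * K) := by
  have hXr : (1 : ℝ) ≤ X := by exact_mod_cast hX
  have h1 : (1 : ℝ) ≤ (X : ℝ) ^ δ := Real.one_le_rpow hXr hδ0.le
  have h2 : (y : ℝ) + 1 ≤ 2 * (X : ℝ) ^ δ := by linarith
  have h3 : ((y : ℝ) + 1) ^ (2 * K) ≤ (X : ℝ) ^ (1 / 4 : ℝ) := by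
    calc ((y : ℝ) + 1) ^ (2 * K) ≤ (2 * (X : ℝ) ^ δ) ^ (2 * K) := by gcongr
      _ = 2 ^ (2 * K) * ((X : ℝ) ^ δ) ^ (2 * K) := mul_pow _ _ _
      _ ≤ (X : ℝ) ^ (1 / 8 : ℝ) * (X : ℝ) ^ (1 / 8 : ℝ) := by
          gcongr
          · have h4 : ((2 : ℝ) ^ (16 * K)) ^ (1 / 8 : ℝ) ≤ (X : ℝ) ^ (1 / 8 : ℝ) :=
              Real.rpow_le_rpow (by positivity) hX2 (by norm_num)
            have h5 : ((2 : ℝ) ^ (16 * K)) ^ (1 / 8 : ℝ) = 2 ^ (2 * K) := by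
              rw [← Real.rpow_natCast, ← Real.rpow_mul (by norm_num), ← Real.rpow_natCast]
              congr 1
              push_cast
              ring
            rw [← h5]
            exact h4
          · rw [← Real.rpow_natCast, ← Real.rpow_mul (by linarith)]
            refine Real.rpow_le_rpow_of_exponent_le hXr ?_
            push_cast
            linarith
      _ = (X : ℝ) ^ (1 / 4 : ℝ) := by
          rw [← Real.rpow_add (by linarith)]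
          norm_num
  rw [Real.rpow_neg (by linarith), one_div ((y : ℝ) + 1), inv_pow]
  exact inv_anti₀ (by positivity) h3

end Pool.Agent.H2.WO
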