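import Pool.Agent.H95.FL.Main

/-!
The fundamental lemma applied to a finite set `A` and conditions at the primes of `P`.
-/

namespace Pool.Agent.H2.WO

open Finset

open Classical in
theorem swap (A : Finset ℕ) (P : Finset ℕ) (H : ℕ → ℕ → Prop) (φ : Finset ℕ → ℝ) :
    ∑ k ∈ A, ∑ S ∈ (P.filter (fun p => H p k)).powerset, φ S =
      ∑ S ∈ P.powerset, φ S * ((A.filter (fun k => ∀ p ∈ S, H p k)).card : ℝ) := by
  have h1 : ∀ k ∈ A, ∑ S ∈ (P.filter (fun p => H p k)).powerset, φ S =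
      ∑ S ∈ P.powerset, if ∀ p ∈ S, H p k then φ S else 0 := by
    intro k _
    rw [← Finset.sum_filter]
    refine Finset.sum_congr ?_ fun _ _ => rfl
    ext S
    simp only [mem_powerset, mem_filter, subset_iff]
    constructor
    · intro h
      exact ⟨fun p hp => (h hp).1, fun p hp => (h hp).2⟩
    · intro h p hp
      exact ⟨h.1 hp, h.2 p hp⟩
  rw [Finset.sum_congr rfl h1, Finset.sum_comm]
  refine Finset.sum_congr rfl fun S _ => ?_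
  rw [← Finset.sum_filter, Finset.sum_const, nsmul_eq_mul, mul_comm]

open Classical in
/-- one sided comparison of the sieve sum with the main term -/
theorem dev {A P : Finset ℕ} {H : ℕ → ℕ → Prop} {φ : Finset ℕ → ℝ} {K : ℕ} {g : ℕ → ℝ} {Y W x η : ℝ}
    (hx : 0 ≤ x ^ η) (hW : 0 ≤ W)
    (hsupp : ∀ S, φ S ≠ 0 → S ⊆ P ∧ ((∏ p ∈ S, p : ℕ) : ℝ) ≤ x ^ η)
    (hmass : ∑ S ∈ P.powerset, |φ S| * (K : ℝ) ^ S.card ≤ x ^ η)
    (hE : ∀ S ∈ P.powerset, |((A.filter (fun k => ∀ p ∈ S, H p k)).card : ℝ) - Y * ∏ p ∈ S, g p| ≤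
      W * ((∏ p ∈ S, p : ℕ) : ℝ) * (K : ℝ) ^ S.card) :
    |∑ k ∈ A, ∑ S ∈ (P.filter (fun p => H p k)).powerset, φ S - Y * ∑ S ∈ P.powerset, φ S * ∏ p ∈ S, g p| ≤
      W * (x ^ η * x ^ η) := by
  rw [swap, Finset.mul_sum, ← Finset.sum_sub_distrib]
  refine (Finset.abs_sum_le_sum_abs _ _).trans ?_
  have h1 : ∀ S ∈ P.powerset,
      |φ S * ((A.filter (fun k => ∀ p ∈ S, H p k)).card : ℝ) - Y * (φ S * ∏ p ∈ S, g p)| ≤
        W * x ^ η * (|φ S| * (K : ℝ) ^ S.card) := by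
    intro S hS
    by_cases h0 : φ S = 0
    · simp [h0]
    · have h2 : φ S * ((A.filter (fun k => ∀ p ∈ S, H p k)).card : ℝ) - Y * (φ S * ∏ p ∈ S, g p) =
          φ S * (((A.filter (fun k => ∀ p ∈ S, H p k)).card : ℝ) - Y * ∏ p ∈ S, g p) := by ring
      rw [h2, abs_mul]
      have h3 := hE S hS
      have h4 := (hsupp S h0).2
      have h5 : W * ((∏ p ∈ S, p : ℕ) : ℝ) * (K : ℝ) ^ S.card ≤ W * x ^ η * (K : ℝ) ^ S.card := by gcongr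
      calc |φ S| * |((A.filter (fun k => ∀ p ∈ S, H p k)).card : ℝ) - Y * ∏ p ∈ S, g p|
          ≤ |φ S| * (W * x ^ η * (K : ℝ) ^ S.card) :=
            mul_le_mul_of_nonneg_left (h3.trans h5) (abs_nonneg _)
        _ = W * x ^ η * (|φ S| * (K : ℝ) ^ S.card) := by ring
  refine (Finset.sum_le_sum h1).trans ?_
  rw [← Finset.mul_sum]
  calc W * x ^ η * ∑ S ∈ P.powerset, |φ S| * (K : ℝ) ^ S.card ≤ W * x ^ η * x ^ η :=
        mul_le_mul_of_nonneg_left hmass (mul_nonneg hW hx)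
    _ = W * (x ^ η * x ^ η) := by ring

open Classical in
/-- the sieve -/
theorem sieve (K : ℕ) (hK : 1 ≤ K) : ∃ w0 : ℕ, 200 * K ≤ w0 ∧ ∀ (B : ℕ) (η a : ℝ), 10 * K ≤ B →
    0 < a → a ≤ 1 → a * (6 * B + 12) ≤ η → ∃ x0 : ℝ, 3 ≤ x0 ∧
      ∀ x : ℝ, x0 ≤ x → ∀ P : Finset ℕ, (∀ p ∈ P, p.Prime ∧ w0 < p ∧ (p : ℝ) ≤ x ^ a) →
      ∀ (A : Finset ℕ) (H : ℕ → ℕ → Prop) (g : ℕ → ℝ) (Y W : ℝ), 0 ≤ Y → 0 ≤ W →
        (∀ p ∈ P, 0 ≤ g p ∧ g p ≤ 2 * K / p) →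
        (∀ S ∈ P.powerset, |((A.filter (fun k => ∀ p ∈ S, H p k)).card : ℝ) - Y * ∏ p ∈ S, g p| ≤
          W * ((∏ p ∈ S, p : ℕ) : ℝ) * (K : ℝ) ^ S.card) →
        |((A.filter (fun k => ∀ p ∈ P, ¬ H p k)).card : ℝ) - Y * ∏ p ∈ P, (1 - g p)| ≤
          (1 / 2 : ℝ) ^ B * (Y * ∏ p ∈ P, (1 - g p)) + W * (x ^ η * x ^ η) := by
  obtain ⟨w0, hw0, h⟩ := Pool.Agent.H95.FL.FL K hK
  refine ⟨w0, hw0, fun B η a hB ha ha1 hη => ?_⟩
  obtain ⟨x0, hx0, h2⟩ := h B η a hB ha ha1 hη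
  refine ⟨x0, hx0, fun x hx P hP A H g Y W hY hW hg hE => ?_⟩
  obtain ⟨fm, fp, hsm, hsp, -, -, hmm, hmp, hval, hmain⟩ := h2 x hx P hP
  obtain ⟨m1, -, -, m4⟩ := hmain g hg
  have hxη : 0 ≤ x ^ η := Real.rpow_nonneg (by linarith) _
  have dm := dev hxη hW hsm hmm hE
  have dp := dev hxη hW hsp hmp hE
  have hcount : ((A.filter (fun k => ∀ p ∈ P, ¬ H p k)).card : ℝ) =
      ∑ k ∈ A, if P.filter (fun p => H p k) = ∅ then (1 : ℝ) else 0 := by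
    rw [Finset.card_filter]
    push_cast
    refine Finset.sum_congr rfl fun k _ => ?_
    refine if_congr ?_ rfl rfl
    rw [Finset.filter_eq_empty_iff]
  have hlow : ∑ k ∈ A, ∑ S ∈ (P.filter (fun p => H p k)).powerset, fm S ≤
      ((A.filter (fun k => ∀ p ∈ P, ¬ H p k)).card : ℝ) := by
    rw [hcount]
    exact Finset.sum_le_sum fun k _ => (hval _ (Finset.filter_subset _ _)).1
  have hupp : ((A.filter (fun k => ∀ p ∈ P, ¬ H p k)).card : ℝ) ≤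
      ∑ k ∈ A, ∑ S ∈ (P.filter (fun p => H p k)).powerset, fp S := by
    rw [hcount]
    exact Finset.sum_le_sum fun k _ => (hval _ (Finset.filter_subset _ _)).2.1
  have e1 := mul_le_mul_of_nonneg_left m1 hY
  have e4 := mul_le_mul_of_nonneg_left m4 hY
  rw [abs_le] at dm dp ⊢
  constructor
  · nlinarith [dm.1, hlow, e1]
  · nlinarith [dp.2, hupp, e4]

end Pool.Agent.H2.WO
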