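import Pool.Agent.H2.WO.Hit
import Pool.Agent.H2.WO.Sie
import Pool.Agent.H2.WO.Low

/-!
The number of `k < X` for which no prime `p ≤ y` prime to `b` divides a number `k b ^ k + c`, `c` in `C`.
-/

namespace Pool.Agent.H2.WO

open Finset

theorem nu_le_self (C : Finset ℤ) {p : ℕ} (hp : 0 < p) : nu C p ≤ p := by
  have : NeZero p := ⟨hp.ne'⟩
  have h1 := Set.ncard_le_card ((fun c : ℤ => (c : ZMod p)) '' (C : Set ℤ))
  rwa [Nat.card_eq_fintype_card, ZMod.card] at h1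

/-- the primes up to `y` not dividing `b` -/
def pr (b y : ℕ) : Finset ℕ := (range (y + 1)).filter (fun p => p.Prime ∧ ¬ p ∣ b)

theorem mem_pr {b y p : ℕ} : p ∈ pr b y ↔ p ≤ y ∧ p.Prime ∧ ¬ p ∣ b := by
  rw [pr, mem_filter, mem_range, Nat.lt_succ_iff]

/-- exact count for the small primes -/
theorem small (b : ℕ) (C : Finset ℤ) (P0 : Finset ℕ) (hP0 : ∀ p ∈ P0, p.Prime ∧ ¬ p ∣ b) :
    (num (fun k => ∀ p ∈ P0, ¬ Hit b C p k) (∏ p ∈ P0, p * (p - 1)) : ℝ) =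
      (∏ p ∈ P0, p * (p - 1) : ℕ) * ∏ p ∈ P0, (1 - (nu C p : ℝ) / p) := by
  have h := countN (fun p k => ¬ Hit b C p k) (fun p => p - nu C p) (R := fun _ => True) (Q := 1) one_pos
    (fun _ => Iff.rfl) P0 (fun p hp => ⟨(hP0 p hp).1, fun h => (hP0 p hp).1.one_lt.ne' (Nat.dvd_one.1 h),
      cond_avoid C (hP0 p hp).1 (hP0 p hp).2⟩)
  have h3 : num (fun _ => True) 1 = 1 := by
    classical
    rw [← num_eq]
    simp
  rw [one_mul, h3, one_mul] at h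
  simp only [true_and] at h
  rw [h]
  push_cast
  rw [← Finset.prod_mul_distrib]
  refine Finset.prod_congr rfl fun p hp => ?_
  have hp0 := (hP0 p hp).1.pos
  have hp1 : (p : ℝ) ≠ 0 := by exact_mod_cast hp0.ne'
  rw [Nat.cast_sub (nu_le_self C hp0)]
  field_simp

theorem main (K : ℕ) (hK : 1 ≤ K) (ε : ℝ) (hε : 0 < ε) : ∃ δ : ℝ, 0 < δ ∧ ∀ (b : ℕ) (C : Finset ℤ),
    C.card ≤ K → ∃ X₀ : ℕ, ∀ X : ℕ, X₀ ≤ X → ∀ y : ℕ, (y : ℝ) ≤ (X : ℝ) ^ δ →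
      |(num (fun k => ∀ p ∈ pr b y, ¬ Hit b C p k) X : ℝ) -
        X * ∏ p ∈ pr b y, (1 - (nu C p : ℝ) / p)| ≤ ε * (X * ∏ p ∈ pr b y, (1 - (nu C p : ℝ) / p)) := by
  classical
  obtain ⟨w0, hw0, h⟩ := sieve K hK
  obtain ⟨B0, hB0⟩ := exists_pow_lt_of_lt_one (half_pos hε) (by norm_num : (1 / 2 : ℝ) < 1)
  set B := max (10 * K) B0 with hB
  have hBε : (1 / 2 : ℝ) ^ B ≤ ε / 2 :=
    (pow_le_pow_of_le_one (by norm_num) (by norm_num) (le_max_right _ _)).trans hB0.le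
  set δ : ℝ := min (1 / (4 * (6 * B + 12))) (1 / (16 * K)) with hδ
  have hKr : (1 : ℝ) ≤ K := by exact_mod_cast hK
  have hδ0 : 0 < δ := lt_min (by positivity) (by positivity)
  have hδ1 : δ * (6 * B + 12) ≤ 1 / 4 := by
    have h1 : δ ≤ 1 / (4 * (6 * B + 12)) := min_le_left _ _
    have h2 : (0 : ℝ) < 6 * B + 12 := by positivity
    calc δ * (6 * B + 12) ≤ 1 / (4 * (6 * B + 12)) * (6 * B + 12) := by gcongr
      _ = 1 / 4 := by field_simp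
  have hδ2 : 2 * K * δ ≤ 1 / 8 := by
    have h1 : δ ≤ 1 / (16 * K) := min_le_right _ _
    calc 2 * K * δ ≤ 2 * K * (1 / (16 * K)) := by gcongr
      _ = 1 / 8 := by field_simp; norm_num
  have hδ3 : δ ≤ 1 := by nlinarith [hδ2, hδ0]
  obtain ⟨x0, hx0, hsv⟩ := h B (1 / 4) δ (le_max_left _ _) hδ0 hδ3 hδ1
  refine ⟨δ, hδ0, fun b C hC => ?_⟩
  set Qm : ℕ := ∏ p ∈ pr b w0, p * (p - 1) with hQm
  have hprod_pos : ∀ S : Finset ℕ, (∀ p ∈ S, p.Prime) → 0 < ∏ p ∈ S, p * (p - 1) := by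
    intro S hS
    refine Finset.prod_pos fun p hp => ?_
    have := (hS p hp).one_lt
    exact Nat.mul_pos (by omega) (by omega)
  refine ⟨max (max 1 ⌈x0⌉₊) (max (2 ^ (16 * K)) ⌈(2 * Qm / ε) ^ 4⌉₊), fun X hX y hy => ?_⟩
  have hX1 : 1 ≤ X := (le_max_left _ _).trans ((le_max_left _ _).trans hX)
  have hXx : x0 ≤ X := (Nat.le_ceil _).trans
    (by exact_mod_cast (le_max_right _ _).trans ((le_max_left _ _).trans hX))
  have hX2 : (2 : ℝ) ^ (16 * K) ≤ X := by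
    exact_mod_cast (le_max_left _ _).trans ((le_max_right _ _).trans hX)
  have hX3 : (2 * Qm / ε) ^ 4 ≤ (X : ℝ) := (Nat.le_ceil _).trans
    (by exact_mod_cast (le_max_right _ _).trans ((le_max_right _ _).trans hX))
  have hXr : (1 : ℝ) ≤ X := by exact_mod_cast hX1
  -- the sets of primes
  set P0 := (pr b y).filter (fun p => p ≤ w0) with hP0
  set P := (pr b y).filter (fun p => ¬ p ≤ w0) with hP
  have hP0p : ∀ p ∈ P0, p.Prime ∧ ¬ p ∣ b := fun p hp => (mem_pr.1 (mem_filter.1 hp).1).2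
  have hPp : ∀ p ∈ P, p.Prime ∧ ¬ p ∣ b := fun p hp => (mem_pr.1 (mem_filter.1 hp).1).2
  have hPw : ∀ p ∈ P, w0 < p := fun p hp => not_le.1 (mem_filter.1 hp).2
  have hPy : ∀ p ∈ P, p ≤ y := fun p hp => (mem_pr.1 (mem_filter.1 hp).1).1
  set Q0 := ∏ p ∈ P0, p * (p - 1) with hQ0
  have hQ0pos : 0 < Q0 := hprod_pos P0 fun p hp => (hP0p p hp).1
  have hQ0m : Q0 ≤ Qm := by
    rw [hQ0, hQm]
    refine Finset.prod_le_prod_of_subset_of_one_le' ?_ ?_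
    · intro p hp
      rw [mem_pr]
      exact ⟨(mem_filter.1 hp).2, hP0p p hp⟩
    · intro p hp _
      have := (mem_pr.1 hp).2.1.one_lt
      exact Nat.mul_pos (by omega) (by omega)
  set R : ℕ → Prop := fun k => ∀ p ∈ P0, ¬ Hit b C p k with hR
  have hRper : ∀ k, R (k + Q0) ↔ R k := by
    intro k
    refine forall₂_congr fun p hp => ?_
    have h1 : Q0 = p * (p - 1) * ∏ x ∈ P0.erase p, x * (x - 1) := by
      rw [hQ0, ← Finset.mul_prod_erase P0 _ hp]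
    rw [h1]
    exact per_mul (R := fun k => ¬ Hit b C p k) (cond_avoid C (hP0p p hp).1 (hP0p p hp).2).per k _
  set N0 := num R Q0 with hN0
  have hN0' : (N0 : ℝ) = Q0 * ∏ p ∈ P0, (1 - (nu C p : ℝ) / p) := small b C P0 hP0p
  have hcond : ∀ S ∈ P.powerset, ∀ p ∈ S, p.Prime ∧ ¬ p ∣ Q0 ∧ Cond (Hit b C p) p (nu C p) := by
    intro S hS p hp
    have hpP := mem_powerset.1 hS hp
    refine ⟨(hPp p hpP).1, fun hd => ?_, cond_hit C (hPp p hpP).1 (hPp p hpP).2⟩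
    obtain ⟨q, hq, hqd⟩ := (Prime.dvd_finsetProd_iff (hPp p hpP).1.prime _).1 hd
    have hqw : q ≤ w0 := (mem_filter.1 hq).2
    have hpw := hPw p hpP
    have hqp := (hP0p q hq).1
    rcases (Nat.Prime.dvd_mul (hPp p hpP).1).1 hqd with h2 | h2
    · exact absurd (Nat.le_of_dvd hqp.pos h2) (by omega)
    · exact absurd (Nat.le_of_dvd (by have := hqp.one_lt; omega) h2) (by omega)
  have hQ0r : (0 : ℝ) < Q0 := by exact_mod_cast hQ0pos
  have hN0r : (0 : ℝ) ≤ N0 := Nat.cast_nonneg _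
  have hE : ∀ S ∈ P.powerset,
      |((((range X).filter R).filter (fun k => ∀ p ∈ S, Hit b C p k)).card : ℝ) -
        X * (N0 / Q0) * ∏ p ∈ S, (nu C p : ℝ) / p| ≤
      N0 * ((∏ p ∈ S, p : ℕ) : ℝ) * (K : ℝ) ^ S.card := by
    intro S hS
    set QS := Q0 * ∏ p ∈ S, p * (p - 1) with hQS
    have hSp : ∀ p ∈ S, p.Prime := fun p hp => (hcond S hS p hp).1
    have hQSpos : 0 < QS := Nat.mul_pos hQ0pos (hprod_pos S hSp)
    have hper : ∀ k, (R (k + QS) ∧ ∀ p ∈ S, Hit b C p (k + QS)) ↔ (R k ∧ ∀ p ∈ S, Hit b C p k) := by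
      intro k
      refine and_congr (per_mul hRper k _) (forall₂_congr fun p hp => ?_)
      have h1 : QS = p * (p - 1) * (Q0 * ∏ x ∈ S.erase p, x * (x - 1)) := by
        rw [hQS, ← Finset.mul_prod_erase S _ hp]
        ring
      rw [h1]
      exact per_mul (hcond S hS p hp).2.2.per k _
    have hint := intervalN (R := fun k => R k ∧ ∀ p ∈ S, Hit b C p k) hQSpos hper X
    have hcnt := countN (fun p k => Hit b C p k) (fun p => nu C p) hQ0pos hRper S (hcond S hS)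
    rw [← hQS, ← hN0] at hcnt
    rw [hcnt] at hint
    rw [Finset.filter_filter, num_eq]
    have e2 : (((N0 * ∏ p ∈ S, (p - 1) * nu C p : ℕ) : ℝ)) / (QS : ℝ) =
        N0 / Q0 * ∏ p ∈ S, (nu C p : ℝ) / p := by
      rw [hQS]
      push_cast
      rw [mul_div_mul_comm, ← Finset.prod_div_distrib]
      congr 1
      refine Finset.prod_congr rfl fun p hp => ?_
      have hp1 := (hSp p hp).one_lt
      have h3 : (p : ℝ) ≠ 0 := by exact_mod_cast (by omega : p ≠ 0)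
      have h4 : ((p - 1 : ℕ) : ℝ) ≠ 0 := by exact_mod_cast (by omega : p - 1 ≠ 0)
      field_simp
    rw [e2, ← mul_assoc] at hint
    refine hint.trans ?_
    rw [mul_assoc]
    push_cast
    refine mul_le_mul_of_nonneg_left ?_ hN0r
    rw [← Finset.prod_const, ← Finset.prod_mul_distrib]
    refine Finset.prod_le_prod (fun p _ => by positivity) fun p _ => ?_
    have h5 : ((p - 1 : ℕ) : ℝ) ≤ p := by exact_mod_cast Nat.sub_le _ _
    have h6 : (nu C p : ℝ) ≤ K := by exact_mod_cast (nu_le C p).trans hC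
    gcongr
  have hg : ∀ p ∈ P, (0 : ℝ) ≤ (nu C p : ℝ) / p ∧ (nu C p : ℝ) / p ≤ 2 * K / p := by
    intro p hp
    refine ⟨by positivity, ?_⟩
    have h6 : (nu C p : ℝ) ≤ K := by exact_mod_cast (nu_le C p).trans hC
    gcongr
    linarith
  have hPP : ∀ p ∈ P, p.Prime ∧ w0 < p ∧ (p : ℝ) ≤ (X : ℝ) ^ δ := fun p hp =>
    ⟨(hPp p hp).1, hPw p hp, le_trans (by exact_mod_cast hPy p hp) hy⟩
  have key := hsv (X : ℝ) hXx P hPP ((range X).filter R) (fun p k => Hit b C p k)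
    (fun p => (nu C p : ℝ) / p) (X * (N0 / Q0)) N0 (by positivity) hN0r hg hE
  -- products
  have hsplit : ∏ p ∈ pr b y, (1 - (nu C p : ℝ) / p) =
      (∏ p ∈ P0, (1 - (nu C p : ℝ) / p)) * ∏ p ∈ P, (1 - (nu C p : ℝ) / p) := by
    rw [hP0, hP, Finset.prod_filter_mul_prod_filter_not]
  have hY : (X : ℝ) * (N0 / Q0) * ∏ p ∈ P, (1 - (nu C p : ℝ) / p) =
      X * ∏ p ∈ pr b y, (1 - (nu C p : ℝ) / p) := by
    rw [hsplit, hN0']
    field_simp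
  have hset : ((((range X).filter R).filter (fun k => ∀ p ∈ P, ¬ Hit b C p k)).card : ℝ) =
      (num (fun k => ∀ p ∈ pr b y, ¬ Hit b C p k) X : ℝ) := by
    rw [Finset.filter_filter, num_eq]
    congr 2
    ext k
    simp only [hR, hP0, hP, Finset.mem_filter]
    constructor
    · rintro ⟨h2, h3⟩ p hp
      by_cases hw : p ≤ w0
      · exact h2 p ⟨hp, hw⟩
      · exact h3 p ⟨hp, hw⟩
    · intro h2
      exact ⟨fun p hp => h2 p hp.1, fun p hp => h2 p hp.1⟩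
  rw [hset, hY] at key
  refine key.trans ?_
  -- the error term
  set V := ∏ p ∈ P, (1 - (nu C p : ℝ) / p) with hV
  have hVlow : (X : ℝ) ^ (-(1 / 4 : ℝ)) ≤ V :=
    (size K δ hδ2 X y hX1 hX2 hδ0 hy).trans
      (prod_low K y w0 P (nu C) hw0 (by omega) (fun p hp => ⟨hPw p hp, hPy p hp⟩)
        (fun p => (nu_le C p).trans hC))
  have hX0 : (0 : ℝ) < X := by linarith
  have hq : 2 * (Q0 : ℝ) / ε ≤ (X : ℝ) ^ (1 / 4 : ℝ) := by
    have h1 : 2 * (Q0 : ℝ) / ε ≤ 2 * Qm / ε := by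
      have : (Q0 : ℝ) ≤ Qm := by exact_mod_cast hQ0m
      gcongr
    have h2 : ((2 * (Qm : ℝ) / ε) ^ 4) ^ (1 / 4 : ℝ) ≤ (X : ℝ) ^ (1 / 4 : ℝ) :=
      Real.rpow_le_rpow (by positivity) hX3 (by norm_num)
    have h3 : ((2 * (Qm : ℝ) / ε) ^ 4) ^ (1 / 4 : ℝ) = 2 * Qm / ε := by
      rw [← Real.rpow_natCast, ← Real.rpow_mul (by positivity)]
      norm_num
    rw [h3] at h2
    exact h1.trans h2
  have hmain : (N0 : ℝ) * ((X : ℝ) ^ (1 / 4 : ℝ) * (X : ℝ) ^ (1 / 4 : ℝ)) ≤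
      ε / 2 * (X * (N0 / Q0) * V) := by
    have h1 : (X : ℝ) ^ (1 / 4 : ℝ) * (X : ℝ) ^ (1 / 4 : ℝ) * (2 * Q0 / ε) ≤
        (X : ℝ) * (X : ℝ) ^ (-(1 / 4 : ℝ)) := by
      calc (X : ℝ) ^ (1 / 4 : ℝ) * (X : ℝ) ^ (1 / 4 : ℝ) * (2 * Q0 / ε)
          ≤ (X : ℝ) ^ (1 / 4 : ℝ) * (X : ℝ) ^ (1 / 4 : ℝ) * (X : ℝ) ^ (1 / 4 : ℝ) := by gcongr
        _ = (X : ℝ) * (X : ℝ) ^ (-(1 / 4 : ℝ)) := by
            have h4 : (X : ℝ) * (X : ℝ) ^ (-(1 / 4 : ℝ)) = (X : ℝ) ^ (1 + -(1 / 4 : ℝ)) := by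
              rw [Real.rpow_add hX0, Real.rpow_one]
            rw [h4, ← Real.rpow_add hX0, ← Real.rpow_add hX0]
            norm_num
    have h2 : (X : ℝ) ^ (1 / 4 : ℝ) * (X : ℝ) ^ (1 / 4 : ℝ) ≤ ε / 2 * (X * (1 / Q0) * V) := by
      have h3 : (X : ℝ) * (X : ℝ) ^ (-(1 / 4 : ℝ)) ≤ X * V := by gcongr
      have h4 := h1.trans h3
      calc (X : ℝ) ^ (1 / 4 : ℝ) * (X : ℝ) ^ (1 / 4 : ℝ)
          = (X : ℝ) ^ (1 / 4 : ℝ) * (X : ℝ) ^ (1 / 4 : ℝ) * (2 * Q0 / ε) * (ε / 2 * (1 / Q0)) := by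
            field_simp
        _ ≤ X * V * (ε / 2 * (1 / Q0)) := by gcongr
        _ = ε / 2 * (X * (1 / Q0) * V) := by ring
    calc (N0 : ℝ) * ((X : ℝ) ^ (1 / 4 : ℝ) * (X : ℝ) ^ (1 / 4 : ℝ))
        ≤ N0 * (ε / 2 * (X * (1 / Q0) * V)) := mul_le_mul_of_nonneg_left h2 hN0r
      _ = ε / 2 * (X * (N0 / Q0) * V) := by ring
  rw [hY] at hmain
  have hnn : 0 ≤ (X : ℝ) * ∏ p ∈ pr b y, (1 - (nu C p : ℝ) / p) := by
    rw [← hY]
    have hV0 : 0 ≤ V := le_trans (by positivity) hVlow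
    positivity
  have h7 := mul_le_mul_of_nonneg_right hBε hnn
  linarith

end Pool.Agent.H2.WO
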