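import Pool.Agent.H2.WO.Main
import Pool.Agent.H75.AP.MertensB

/-!
The order of magnitude of the sieve product.
-/

namespace Pool.Agent.H2.WO

open Finset Pool.Agent.H75.AP

theorem log_low {x : ℝ} (h0 : 0 ≤ x) (h1 : x ≤ 1 / 2) : -x - 2 * x ^ 2 ≤ Real.log (1 - x) := by
  have h2 := Real.one_sub_inv_le_log_of_pos (x := 1 - x) (by linarith)
  have h3 : 1 - (1 - x)⁻¹ = -(x / (1 - x)) := by
    have : (1 - x) ≠ 0 := by linarith
    field_simp
    ring
  have h4 : x / (1 - x) ≤ x + 2 * x ^ 2 := by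
    rw [div_le_iff₀ (by linarith)]
    nlinarith [mul_nonneg h0 h0, mul_nonneg (mul_nonneg h0 h0) (by linarith : (0 : ℝ) ≤ 1 - 2 * x)]
  rw [h3] at h2
  linarith

theorem sum_sq : ∃ D : ℝ, 0 < D ∧ ∀ S : Finset ℕ, ∑ p ∈ S, 1 / (p : ℝ) ^ 2 ≤ D := by
  have hs : Summable (fun n : ℕ => 1 / (n : ℝ) ^ 2) := Real.summable_one_div_nat_pow.2 (by norm_num)
  refine ⟨∑' n : ℕ, 1 / (n : ℝ) ^ 2 + 1, ?_, fun S => ?_⟩
  · have : 0 ≤ ∑' n : ℕ, 1 / (n : ℝ) ^ 2 := tsum_nonneg fun n => by positivity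
    linarith
  · have := hs.sum_le_tsum S fun n _ => by positivity
    linarith

theorem mem_PI0 {y p : ℕ} : p ∈ PI 0 (y : ℝ) ↔ p.Prime ∧ p ≤ y := by
  rw [PI, mem_filter, mem_range, Nat.floor_natCast, Nat.lt_succ_iff]
  constructor
  · rintro ⟨h1, h2, -⟩
    exact ⟨h2, h1⟩
  · rintro ⟨h1, h2⟩
    exact ⟨h2, h1, by exact_mod_cast h1.pos⟩

/-- lower bound -/
theorem prod_lower (K b : ℕ) (ν : ℕ → ℕ) (hν : ∀ p, ν p ≤ K) (hν1 : ∀ p, p.Prime → ¬ p ∣ b → ν p < p) :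
    ∃ c : ℝ, 0 < c ∧ ∀ y : ℕ, 3 ≤ y → c * (1 / Real.log y ^ K) ≤ ∏ p ∈ pr b y, (1 - (ν p : ℝ) / p) := by
  obtain ⟨C, hC, hM⟩ := mertens_upper
  obtain ⟨D, hD, hS⟩ := sum_sq
  refine ⟨(∏ n ∈ Icc 1 (2 * K), 1 / (n : ℝ)) * Real.exp (-(K * C) - 2 * K ^ 2 * D), by
    refine mul_pos (Finset.prod_pos fun n hn => ?_) (Real.exp_pos _)
    have := (mem_Icc.1 hn).1
    positivity, fun y hy => ?_⟩
  have hlog : 0 < Real.log y := Real.log_pos (by exact_mod_cast (by omega : 1 < y))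
  rw [← Finset.prod_filter_mul_prod_filter_not (pr b y) (fun p => p ≤ 2 * K)]
  have hsmall : ∏ n ∈ Icc 1 (2 * K), 1 / (n : ℝ) ≤
      ∏ p ∈ (pr b y).filter (fun p => p ≤ 2 * K), (1 - (ν p : ℝ) / p) := by
    have hsub : (pr b y).filter (fun p => p ≤ 2 * K) ⊆ Icc 1 (2 * K) := by
      intro p hp
      rw [mem_filter, mem_pr] at hp
      rw [mem_Icc]
      exact ⟨hp.1.2.1.pos, hp.2⟩
    rw [← Finset.prod_sdiff hsub]
    have h1 : ∏ n ∈ Icc 1 (2 * K) \ (pr b y).filter (fun p => p ≤ 2 * K), 1 / (n : ℝ) ≤ 1 := by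
      refine Finset.prod_le_one (fun n _ => by positivity) fun n hn => ?_
      have h2 := (mem_Icc.1 (mem_sdiff.1 hn).1).1
      rw [div_le_one (by exact_mod_cast (by omega : 0 < n))]
      exact_mod_cast h2
    have h3 : ∏ n ∈ (pr b y).filter (fun p => p ≤ 2 * K), 1 / (n : ℝ) ≤
        ∏ p ∈ (pr b y).filter (fun p => p ≤ 2 * K), (1 - (ν p : ℝ) / p) := by
      refine Finset.prod_le_prod (fun n _ => by positivity) fun p hp => ?_
      rw [mem_filter, mem_pr] at hp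
      have h4 := hν1 p hp.1.2.1 hp.1.2.2
      have h5 : (ν p : ℝ) + 1 ≤ p := by exact_mod_cast h4
      have hp0 : (0 : ℝ) < p := by exact_mod_cast hp.1.2.1.pos
      rw [le_sub_iff_add_le, ← add_div, div_le_one hp0]
      linarith
    exact (mul_le_of_le_one_left (Finset.prod_nonneg fun n _ => by positivity) h1).trans h3
  set T := (pr b y).filter (fun p => ¬ p ≤ 2 * K) with hT
  have hTp : ∀ p ∈ T, p.Prime ∧ 2 * K < p ∧ p ≤ y := fun p hp => by
    rw [hT, mem_filter, mem_pr] at hp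
    exact ⟨hp.1.2.1, not_le.1 hp.2, hp.1.1⟩
  have hx : ∀ p ∈ T, (0 : ℝ) ≤ (ν p : ℝ) / p ∧ (ν p : ℝ) / p ≤ K / p ∧ (K : ℝ) / p ≤ 1 / 2 := by
    intro p hp
    obtain ⟨h1, h2, -⟩ := hTp p hp
    have hp0 : (0 : ℝ) < p := by exact_mod_cast h1.pos
    have h3 : (ν p : ℝ) ≤ K := by exact_mod_cast hν p
    refine ⟨by positivity, by gcongr, ?_⟩
    rw [div_le_div_iff₀ hp0 (by norm_num)]
    have : ((2 * K : ℕ) : ℝ) < p := by exact_mod_cast h2
    push_cast at this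
    linarith
  have hlarge : Real.exp (-(K * C) - 2 * K ^ 2 * D) * (1 / Real.log y ^ K) ≤
      ∏ p ∈ T, (1 - (ν p : ℝ) / p) := by
    have hpos : ∀ p ∈ T, 0 < 1 - (ν p : ℝ) / p := fun p hp => by
      obtain ⟨h1, h2, h3⟩ := hx p hp
      linarith
    rw [← Real.exp_log (Finset.prod_pos hpos), Real.log_prod (fun p hp => (hpos p hp).ne')]
    have h4 : 1 / Real.log y ^ K = Real.exp (-(K * Real.log (Real.log y))) := by
      rw [Real.exp_neg, ← Real.log_pow, Real.exp_log (by positivity), one_div]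
    rw [h4, ← Real.exp_add]
    refine Real.exp_le_exp.2 ?_
    have h5 : ∀ p ∈ T, -(K * (1 / (p : ℝ))) - 2 * K ^ 2 * (1 / (p : ℝ) ^ 2) ≤
        Real.log (1 - (ν p : ℝ) / p) := by
      intro p hp
      obtain ⟨h1, h2, h3⟩ := hx p hp
      have h6 := log_low h1 (h2.trans h3)
      have h7 : ((ν p : ℝ) / p) ^ 2 ≤ ((K : ℝ) / p) ^ 2 := by gcongr
      have h8 : ((K : ℝ) / p) ^ 2 = K ^ 2 * (1 / (p : ℝ) ^ 2) := by rw [div_pow]; ring
      have h9 : (K : ℝ) * (1 / p) = K / p := by ring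
      rw [h9]
      nlinarith
    refine le_trans ?_ (Finset.sum_le_sum h5)
    rw [Finset.sum_sub_distrib, Finset.sum_neg_distrib, ← Finset.mul_sum, ← Finset.mul_sum]
    have h10 : ∑ p ∈ T, 1 / (p : ℝ) ≤ Real.log (Real.log y) + C := by
      refine le_trans ?_ (hM y (by exact_mod_cast hy))
      refine Finset.sum_le_sum_of_subset_of_nonneg (fun p hp => ?_) fun _ _ _ => by positivity
      obtain ⟨h11, -, h12⟩ := hTp p hp
      rw [mem_PI0]
      exact ⟨h11, h12⟩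
    have h13 := mul_le_mul_of_nonneg_left h10 (Nat.cast_nonneg (α := ℝ) K)
    have h14 := mul_le_mul_of_nonneg_left (hS T) (by positivity : (0 : ℝ) ≤ 2 * K ^ 2)
    linarith
  have h15 : (0 : ℝ) ≤ ∏ p ∈ (pr b y).filter (fun p => p ≤ 2 * K), (1 - (ν p : ℝ) / p) :=
    le_trans (Finset.prod_nonneg fun n _ => by positivity) hsmall
  rw [mul_assoc]
  exact mul_le_mul hsmall hlarge (by positivity) h15

/-- upper bound; `N ≠ 0`, and `ν p = K` for the primes `p` not dividing `N` -/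
theorem prod_upper (K b N : ℕ) (ν : ℕ → ℕ) (hN : N ≠ 0) (hν1 : ∀ p, p.Prime → ν p ≤ p)
    (hb : ∀ p, p.Prime → ¬ p ∣ N → ¬ p ∣ b ∧ ν p = K) :
    ∃ c : ℝ, 0 < c ∧ ∀ y : ℕ, 3 ≤ y → ∏ p ∈ pr b y, (1 - (ν p : ℝ) / p) ≤ c * (1 / Real.log y ^ K) := by
  obtain ⟨C, hC, hM⟩ := mertens_low
  refine ⟨Real.exp (K * C + K * N.primeFactors.card), Real.exp_pos _, fun y hy => ?_⟩
  have hlog : 0 < Real.log y := Real.log_pos (by exact_mod_cast (by omega : 1 < y))
  have hp0 : ∀ p ∈ pr b y, (0 : ℝ) < p := fun p hp => by exact_mod_cast (mem_pr.1 hp).2.1.pos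
  have h1 : ∏ p ∈ pr b y, (1 - (ν p : ℝ) / p) ≤ ∏ p ∈ pr b y, Real.exp (-((ν p : ℝ) / p)) := by
    refine Finset.prod_le_prod (fun p hp => ?_) fun p hp => ?_
    · rw [sub_nonneg, div_le_one (hp0 p hp)]
      exact_mod_cast hν1 p (mem_pr.1 hp).2.1
    · have := Real.add_one_le_exp (-((ν p : ℝ) / p))
      linarith
  refine h1.trans ?_
  rw [← Real.exp_sum]
  have h4 : 1 / Real.log y ^ K = Real.exp (-(K * Real.log (Real.log y))) := by
    rw [Real.exp_neg, ← Real.log_pow, Real.exp_log (by positivity), one_div]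
  rw [h4, ← Real.exp_add]
  refine Real.exp_le_exp.2 ?_
  rw [Finset.sum_neg_distrib]
  have h5 : (K : ℝ) * ∑ p ∈ PI 0 (y : ℝ), 1 / (p : ℝ) - K * N.primeFactors.card ≤
      ∑ p ∈ pr b y, (ν p : ℝ) / p := by
    have h6 : (PI 0 (y : ℝ)).filter (fun p => ¬ p ∣ N) ⊆ pr b y := by
      intro p hp
      rw [mem_filter, mem_PI0] at hp
      rw [mem_pr]
      exact ⟨hp.1.2, hp.1.1, (hb p hp.1.1 hp.2).1⟩
    have h7 : ∑ p ∈ (PI 0 (y : ℝ)).filter (fun p => ¬ p ∣ N), (K : ℝ) * (1 / p) ≤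
        ∑ p ∈ pr b y, (ν p : ℝ) / p := by
      refine le_trans (le_of_eq (Finset.sum_congr rfl fun p hp => ?_))
        (Finset.sum_le_sum_of_subset_of_nonneg h6 fun _ _ _ => by positivity)
      rw [mem_filter, mem_PI0] at hp
      rw [(hb p hp.1.1 hp.2).2]
      ring
    have h8 : ∑ p ∈ (PI 0 (y : ℝ)).filter (fun p => p ∣ N), (K : ℝ) * (1 / p) ≤ K * N.primeFactors.card := by
      have h9 : (PI 0 (y : ℝ)).filter (fun p => p ∣ N) ⊆ N.primeFactors := by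
        intro p hp
        rw [mem_filter, mem_PI0] at hp
        exact Nat.mem_primeFactors.2 ⟨hp.1.1, hp.2, hN⟩
      calc ∑ p ∈ (PI 0 (y : ℝ)).filter (fun p => p ∣ N), (K : ℝ) * (1 / p)
          ≤ ∑ p ∈ N.primeFactors, (K : ℝ) * (1 / p) :=
            Finset.sum_le_sum_of_subset_of_nonneg h9 fun _ _ _ => by positivity
        _ ≤ ∑ p ∈ N.primeFactors, (K : ℝ) * 1 := by
            refine Finset.sum_le_sum fun p hp => ?_
            refine mul_le_mul_of_nonneg_left ?_ (Nat.cast_nonneg _)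
            have := (Nat.prime_of_mem_primeFactors hp).one_lt
            rw [div_le_one (by exact_mod_cast (by omega : 0 < p))]
            exact_mod_cast this.le
        _ = K * N.primeFactors.card := by
            rw [Finset.sum_const, nsmul_eq_mul]
            ring
    have h10 := Finset.sum_filter_add_sum_filter_not (PI 0 (y : ℝ)) (fun p => p ∣ N)
      (fun p => (K : ℝ) * (1 / p))
    rw [Finset.mul_sum]
    linarith
  have h11 := mul_le_mul_of_nonneg_left (hM y (by exact_mod_cast hy)) (Nat.cast_nonneg (α := ℝ) K)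
  linarith

end Pool.Agent.H2.WO
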